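import Pool.Agent.H34.RM.Defs

/-!
Two books (MP_28724c_co): existence of the maximiser over both simplices and over a window of
exponents, the trivial bounds, and the control of the excesses from maximality in the exponents.
-/

open Finset

namespace Pool.Agent.H33.RM

open Pool.Agent.H92 Pool.Agent.H34.RM

section simplex
variable {V : Type} [DecidableEq V]

lemma IsProb.le_one {Y : Finset V} {f : V → ℝ} (h : IsProb Y f) (y : V) : f y ≤ 1 := by
  by_cases hy : y ∈ Y
  · calc f y ≤ ∑ z ∈ Y, f z := Finset.single_le_sum (fun i _ => h.nonneg i) hy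
      _ = 1 := h.sum
  · rw [h.supp y hy]; norm_num

lemma isCompact_prob (Y : Finset V) : IsCompact {f : V → ℝ | IsProb Y f} := by
  have hc : IsCompact (Set.pi Set.univ (fun y : V => if y ∈ Y then Set.Icc (0:ℝ) 1 else {0})) := by
    apply isCompact_univ_pi
    intro y
    by_cases hy : y ∈ Y
    · simp only [hy, if_true]; exact isCompact_Icc
    · simp only [hy, if_false]; exact isCompact_singleton
  have hcl : IsClosed {f : V → ℝ | ∑ y ∈ Y, f y = 1} := by
    apply isClosed_eq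
    · exact continuous_finsetSum _ (fun y _ => continuous_apply y)
    · exact continuous_const
  have heq : {f : V → ℝ | IsProb Y f}
      = (Set.pi Set.univ (fun y : V => if y ∈ Y then Set.Icc (0:ℝ) 1 else {0}))
        ∩ {f : V → ℝ | ∑ y ∈ Y, f y = 1} := by
    ext f
    simp only [Set.mem_ofPred_eq, Set.mem_inter_iff, Set.mem_pi, Set.mem_univ, forall_true_left]
    constructor
    · intro h
      refine ⟨fun y => ?_, h.sum⟩
      by_cases hy : y ∈ Y
      · simp only [hy, if_true]; exact ⟨h.nonneg y, IsProb.le_one h y⟩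
      · simp only [hy, if_false]; exact h.supp y hy
    · rintro ⟨h1, h2⟩
      refine ⟨fun y => ?_, fun y hy => ?_, h2⟩
      · have := h1 y
        by_cases hy : y ∈ Y
        · simp only [hy, if_true] at this; exact this.1
        · simp only [hy, if_false] at this; rw [this]
      · have := h1 y
        simp only [hy, if_false] at this; exact this
  rw [heq]
  exact hc.inter_right hcl

/-- the uniform weight -/
noncomputable def unif (Y : Finset V) (y : V) : ℝ := if y ∈ Y then 1 / (Y.card : ℝ) else 0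

lemma isProb_unif {Y : Finset V} (hY : Y.Nonempty) : IsProb Y (unif Y) := by
  have hc : (0:ℝ) < Y.card := by exact_mod_cast hY.card_pos
  refine ⟨fun y => ?_, fun y hy => ?_, ?_⟩
  · unfold unif; split_ifs
    · positivity
    · exact le_rfl
  · simp [unif, hy]
  · rw [Finset.sum_congr rfl (fun y hy => by simp only [unif, hy, if_true] : ∀ y ∈ Y, unif Y y = 1 / (Y.card : ℝ))]
    rw [Finset.sum_const, nsmul_eq_mul]
    field_simp

lemma sum_rpow_ge {Y : Finset V} (hY : Y.Nonempty) {d : ℝ} (hd : 0 < d) {nu : V → ℝ}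
    (h : IsProb Y nu) : (Y.card : ℝ) ^ (-d) ≤ ∑ y ∈ Y, nu y ^ (1 + d) := by
  have hc : (0:ℝ) < Y.card := by exact_mod_cast hY.card_pos
  have h1 := Real.rpow_arith_mean_le_arith_mean_rpow Y (fun _ => 1 / (Y.card : ℝ)) nu
    (fun i _ => by positivity) (by rw [Finset.sum_const, nsmul_eq_mul]; field_simp)
    (fun i _ => h.nonneg i) (show 1 ≤ 1 + d by linarith)
  rw [← Finset.mul_sum, ← Finset.mul_sum, h.sum, mul_one] at h1
  have h2 : (Y.card : ℝ) ^ (-d) = (Y.card : ℝ) * (1 / (Y.card : ℝ)) ^ (1 + d) := by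
    rw [one_div, Real.inv_rpow hc.le, ← Real.rpow_neg hc.le]
    conv_rhs => rw [show (Y.card : ℝ) * (Y.card : ℝ) ^ (-(1 + d))
      = (Y.card : ℝ) ^ (1:ℝ) * (Y.card : ℝ) ^ (-(1 + d)) by rw [Real.rpow_one]]
    rw [← Real.rpow_add hc]
    congr 1; ring
  rw [h2]
  calc (Y.card : ℝ) * (1 / (Y.card : ℝ)) ^ (1 + d)
      ≤ (Y.card : ℝ) * (1 / (Y.card : ℝ) * ∑ y ∈ Y, nu y ^ (1 + d)) :=
        mul_le_mul_of_nonneg_left h1 hc.le
    _ = ∑ y ∈ Y, nu y ^ (1 + d) := by field_simp

lemma sum_rpow_pos {Y : Finset V} (hY : Y.Nonempty) {d : ℝ} (hd : 0 < d) {nu : V → ℝ}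
    (h : IsProb Y nu) : 0 < ∑ y ∈ Y, nu y ^ (1 + d) := by
  have hc : (0:ℝ) < Y.card := by exact_mod_cast hY.card_pos
  exact lt_of_lt_of_le (Real.rpow_pos_of_pos hc _) (sum_rpow_ge hY hd h)

lemma lsz_le {Y : Finset V} (hY : Y.Nonempty) {d : ℝ} (hd : 0 < d) {nu : V → ℝ}
    (h : IsProb Y nu) : lsz d Y nu ≤ Real.log Y.card := by
  have hc : (0:ℝ) < Y.card := by exact_mod_cast hY.card_pos
  have h1 := Real.log_le_log (Real.rpow_pos_of_pos hc _) (sum_rpow_ge hY hd h)
  rw [Real.log_rpow hc] at h1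
  unfold lsz
  have : -(1 / d) * Real.log (∑ y ∈ Y, nu y ^ (1 + d)) ≤ -(1/d) * (-d * Real.log Y.card) := by
    apply mul_le_mul_of_nonpos_left h1
    have : 0 < 1 / d := by positivity
    linarith
  calc _ ≤ _ := this
    _ = Real.log Y.card := by field_simp

lemma lsz_unif {Y : Finset V} (hY : Y.Nonempty) {d : ℝ} (hd : 0 < d) :
    lsz d Y (unif Y) = Real.log Y.card := by
  have hc : (0:ℝ) < Y.card := by exact_mod_cast hY.card_pos
  unfold lsz
  rw [Finset.sum_congr rfl (fun y hy => by simp only [unif, hy, if_true] :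
    ∀ y ∈ Y, unif Y y ^ (1 + d) = (1 / (Y.card : ℝ)) ^ (1 + d))]
  rw [Finset.sum_const, nsmul_eq_mul, Real.log_mul hc.ne' (Real.rpow_pos_of_pos (by positivity) _).ne',
    Real.log_rpow (by positivity), show (1 / (Y.card : ℝ)) = (Y.card : ℝ)⁻¹ from one_div _,
    Real.log_inv]
  field_simp
  ring

end simplex

section graph
variable {V : Type} [DecidableEq V] (G : SimpleGraph V) [DecidableRel G.Adj]

lemma rI_nonneg (x y : V) : 0 ≤ rI G x y := by unfold rI; split_ifs <;> norm_num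
lemma rI_le_one (x y : V) : rI G x y ≤ 1 := by unfold rI; split_ifs <;> norm_num
lemma bI_nonneg (x y : V) : 0 ≤ bI G x y := by unfold bI; split_ifs <;> norm_num
lemma bI_le_one (x y : V) : bI G x y ≤ 1 := by unfold bI; split_ifs <;> norm_num

lemma dR_nonneg {Y : Finset V} {nu : V → ℝ} (h : IsProb Y nu) (x : V) : 0 ≤ dR G Y nu x :=
  Finset.sum_nonneg (fun y _ => mul_nonneg (h.nonneg y) (rI_nonneg G x y))
lemma dR_le_one {Y : Finset V} {nu : V → ℝ} (h : IsProb Y nu) (x : V) : dR G Y nu x ≤ 1 := by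
  rw [← h.sum]
  exact Finset.sum_le_sum (fun y _ => mul_le_of_le_one_right (h.nonneg y) (rI_le_one G x y))
lemma dB_nonneg {Y : Finset V} {nu : V → ℝ} (h : IsProb Y nu) (x : V) : 0 ≤ dB G Y nu x :=
  Finset.sum_nonneg (fun y _ => mul_nonneg (h.nonneg y) (bI_nonneg G x y))
lemma dB_le_one {Y : Finset V} {nu : V → ℝ} (h : IsProb Y nu) (x : V) : dB G Y nu x ≤ 1 := by
  rw [← h.sum]
  exact Finset.sum_le_sum (fun y _ => mul_le_of_le_one_right (h.nonneg y) (bI_le_one G x y))

lemma wt_nonneg (q p : ℝ) (w w' : ℕ) (Y Z : Finset V) (nu ze : V → ℝ) (x : V) :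
    0 ≤ wt G q p w w' Y Z nu ze x := by
  unfold wt; positivity

lemma SS_nonneg (q p : ℝ) (w w' : ℕ) (X Y Z : Finset V) (nu ze : V → ℝ) :
    0 ≤ SS G q p w w' X Y Z nu ze :=
  Finset.sum_nonneg (fun x _ => wt_nonneg G q p w w' Y Z nu ze x)

lemma wt_le_one {q p : ℝ} (hq : 0 ≤ q) (hp : 0 ≤ p) (w w' : ℕ) {Y Z : Finset V} {nu ze : V → ℝ}
    (hnu : IsProb Y nu) (hze : IsProb Z ze) (x : V) :
    wt G q p w w' Y Z nu ze x ≤ 1 := by
  have h1 : max (dR G Y nu x - q) 0 ≤ 1 :=
    max_le (by linarith [dR_le_one G hnu x]) (by norm_num)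
  have h2 : max (dB G Z ze x - p) 0 ≤ 1 :=
    max_le (by linarith [dB_le_one G hze x]) (by norm_num)
  unfold wt
  have h3 : (max (dR G Y nu x - q) 0) ^ w ≤ 1 := pow_le_one₀ (le_max_right _ _) h1
  have h4 : (max (dB G Z ze x - p) 0) ^ w' ≤ 1 := pow_le_one₀ (le_max_right _ _) h2
  have h5 : 0 ≤ (max (dR G Y nu x - q) 0) ^ w := by positivity
  have h6 : 0 ≤ (max (dB G Z ze x - p) 0) ^ w' := by positivity
  nlinarith

lemma SS_le_card {q p : ℝ} (hq : 0 ≤ q) (hp : 0 ≤ p) (w w' : ℕ) {X Y Z : Finset V}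
    {nu ze : V → ℝ} (hnu : IsProb Y nu) (hze : IsProb Z ze) :
    SS G q p w w' X Y Z nu ze ≤ X.card := by
  unfold SS
  calc _ ≤ ∑ x ∈ X, (1:ℝ) := Finset.sum_le_sum (fun x _ => wt_le_one G hq hp w w' hnu hze x)
    _ = X.card := by simp

lemma PP_nonneg (a b c d q p : ℝ) (w w' : ℕ) (X Y Z : Finset V) (nu ze : V → ℝ) :
    0 ≤ PP G a b c d q p w w' X Y Z nu ze := by
  unfold PP
  exact mul_nonneg (Real.exp_pos _).le (Real.rpow_nonneg (SS_nonneg G q p w w' X Y Z nu ze) _)

/-- the trivial bound, with a bound for `SS` -/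
lemma PP_le {a b c d q p : ℝ} (ha : 0 < a) (hb : 0 < b) (hc : 0 < c) (hd : 0 < d)
    {w w' : ℕ} {X Y Z : Finset V} (hY : Y.Nonempty) (hZ : Z.Nonempty) {nu ze : V → ℝ}
    (hnu : IsProb Y nu) (hze : IsProb Z ze) {s : ℝ} (hs : SS G q p w w' X Y Z nu ze ≤ s) :
    PP G a b c d q p w w' X Y Z nu ze
      ≤ Real.exp (b * Real.log Y.card + c * Real.log Z.card) * s ^ a := by
  unfold PP
  have h0 := SS_nonneg G q p w w' X Y Z nu ze
  have h1 := lsz_le hY hd hnu
  have h2 := lsz_le hZ hd hze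
  apply mul_le_mul
  · apply Real.exp_le_exp.mpr
    nlinarith [mul_le_mul_of_nonneg_left h1 hb.le, mul_le_mul_of_nonneg_left h2 hc.le]
  · exact Real.rpow_le_rpow h0 hs ha.le
  · exact Real.rpow_nonneg h0 _
  · exact (Real.exp_pos _).le

lemma continuous_dR (Y : Finset V) (x : V) : Continuous (fun nu : V → ℝ => dR G Y nu x) := by
  unfold dR
  exact continuous_finsetSum _ (fun y _ => (continuous_apply y).mul continuous_const)
lemma continuous_dB (Y : Finset V) (x : V) : Continuous (fun nu : V → ℝ => dB G Y nu x) := by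
  unfold dB
  exact continuous_finsetSum _ (fun y _ => (continuous_apply y).mul continuous_const)

lemma continuous_SS (q p : ℝ) (w w' : ℕ) (X Y Z : Finset V) :
    Continuous (fun t : (V → ℝ) × (V → ℝ) => SS G q p w w' X Y Z t.1 t.2) := by
  unfold SS wt
  apply continuous_finsetSum
  intro x _
  have h1 : Continuous (fun t : (V → ℝ) × (V → ℝ) => dR G Y t.1 x) :=
    (continuous_dR G Y x).comp continuous_fst
  have h2 : Continuous (fun t : (V → ℝ) × (V → ℝ) => dB G Z t.2 x) :=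
    (continuous_dB G Z x).comp continuous_snd
  fun_prop

lemma continuousOn_lsz {d : ℝ} (hd : 0 < d) {Y : Finset V} (hY : Y.Nonempty) :
    ContinuousOn (fun nu : V → ℝ => lsz d Y nu) {f : V → ℝ | IsProb Y f} := by
  unfold lsz
  apply ContinuousOn.mul continuousOn_const
  apply ContinuousOn.log
  · apply Continuous.continuousOn
    apply continuous_finsetSum
    intro y _
    exact (continuous_apply y).rpow_const (fun _ => Or.inr (by linarith))
  · intro f hf
    exact (sum_rpow_pos hY hd hf).ne'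

theorem exists_max {a b c d q p : ℝ} (ha : 0 < a) (hd : 0 < d) (w w' : ℕ) (X : Finset V)
    {Y Z : Finset V} (hY : Y.Nonempty) (hZ : Z.Nonempty) :
    ∃ nu ze : V → ℝ, IsProb Y nu ∧ IsProb Z ze ∧
      ∀ nu' ze' : V → ℝ, IsProb Y nu' → IsProb Z ze' →
        PP G a b c d q p w w' X Y Z nu' ze' ≤ PP G a b c d q p w w' X Y Z nu ze := by
  have hK : IsCompact ({f : V → ℝ | IsProb Y f} ×ˢ {f : V → ℝ | IsProb Z f}) :=
    (isCompact_prob Y).prod (isCompact_prob Z)
  have hne : ({f : V → ℝ | IsProb Y f} ×ˢ {f : V → ℝ | IsProb Z f}).Nonempty :=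
    ⟨(unif Y, unif Z), isProb_unif hY, isProb_unif hZ⟩
  have hcont : ContinuousOn (fun t : (V → ℝ) × (V → ℝ) => PP G a b c d q p w w' X Y Z t.1 t.2)
      ({f : V → ℝ | IsProb Y f} ×ˢ {f : V → ℝ | IsProb Z f}) := by
    unfold PP
    apply ContinuousOn.mul
    · apply Real.continuous_exp.comp_continuousOn
      apply ContinuousOn.add
      · apply ContinuousOn.mul continuousOn_const
        exact (continuousOn_lsz hd hY).comp continuous_fst.continuousOn (fun t ht => ht.1)
      · apply ContinuousOn.mul continuousOn_const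
        exact (continuousOn_lsz hd hZ).comp continuous_snd.continuousOn (fun t ht => ht.2)
    · exact ((continuous_SS G q p w w' X Y Z).rpow_const (fun _ => Or.inr ha.le)).continuousOn
  obtain ⟨⟨nu, ze⟩, hmem, hmax⟩ := hK.exists_isMaxOn hne hcont
  refine ⟨nu, ze, hmem.1, hmem.2, fun nu' ze' h1 h2 => ?_⟩
  exact hmax (show (nu', ze') ∈ _ from ⟨h1, h2⟩)

/-- maximiser over the two simplices and over a finite window of exponents with penalty -/
theorem exists_max_window {a b c d q p : ℝ} (ha : 0 < a) (hd : 0 < d) (R R' : ℕ) (hR : R ≤ R')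
    (pen : ℕ → ℕ → ℝ) (X : Finset V) {Y Z : Finset V} (hY : Y.Nonempty) (hZ : Z.Nonempty) :
    ∃ (w w' : ℕ) (nu ze : V → ℝ), R ≤ w ∧ w ≤ R' ∧ R ≤ w' ∧ w' ≤ R' ∧ IsProb Y nu ∧
      IsProb Z ze ∧
      ∀ (v v' : ℕ) (nu' ze' : V → ℝ), R ≤ v → v ≤ R' → R ≤ v' → v' ≤ R' →
        IsProb Y nu' → IsProb Z ze' →
        PP G a b c d q p v v' X Y Z nu' ze' * Real.exp (-pen v v')
          ≤ PP G a b c d q p w w' X Y Z nu ze * Real.exp (-pen w w') := by
  classical
  choose nu ze h1 h2 h3 using fun t : ℕ × ℕ =>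
    exists_max G (a := a) (b := b) (c := c) (d := d) (q := q) (p := p) ha hd t.1 t.2 X hY hZ
  have hne : ((Finset.Icc R R') ×ˢ (Finset.Icc R R')).Nonempty :=
    ⟨(R, R), by simp [hR]⟩
  obtain ⟨⟨w, w'⟩, hmem, hmax⟩ := Finset.exists_max_image
    ((Finset.Icc R R') ×ˢ (Finset.Icc R R'))
    (fun t => PP G a b c d q p t.1 t.2 X Y Z (nu t) (ze t) * Real.exp (-pen t.1 t.2)) hne
  simp only [Finset.mem_product, Finset.mem_Icc] at hmem
  refine ⟨w, w', nu (w, w'), ze (w, w'), hmem.1.1, hmem.1.2, hmem.2.1, hmem.2.2,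
    h1 _, h2 _, fun v v' nu' ze' hv1 hv2 hv3 hv4 hn hz => ?_⟩
  have := hmax (v, v') (by simp [hv1, hv2, hv3, hv4])
  refine le_trans ?_ this
  exact mul_le_mul_of_nonneg_right (h3 (v, v') nu' ze' hn hz) (Real.exp_pos _).le

end graph

end Pool.Agent.H33.RM
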