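import Pool.Agent.H34.RM.Rows2
import Pool.Agent.H33.RM.Max
import Pool.Agent.H74.RM.RowDE

/-!
Two books (MP_28724c_co): rows F1 and F4.
-/

open Finset

namespace Pool.Agent.H33.RM

open Pool.Agent.H92 Pool.Agent.H34.RM

theorem rowF1 : RowF1 := by
  intro a b c d L S S' r r' z z' ha hb hc hd hS hS' hr hr' hz hz' h
  set κ : ℝ := -L / a + (Real.log (r' / r) * (b / (a * d)) + Real.log (z' / z) * (c / (a * d)))
    with hκ
  have hK : Real.exp (-L / a) * ((r' / r) ^ (b / (a * d)) * (z' / z) ^ (c / (a * d)))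
      = Real.exp κ := by
    rw [Real.rpow_def_of_pos (by positivity), Real.rpow_def_of_pos (by positivity),
      ← Real.exp_add, ← Real.exp_add]
  rw [hK]
  have h1 : S' ^ a ≤ (Real.exp κ * S) ^ a := by
    rw [Real.mul_rpow (Real.exp_pos _).le hS, ← Real.exp_mul]
    have hE : 0 < Real.exp (b * (-(1 / d) * Real.log r') + c * (-(1 / d) * Real.log z')) :=
      Real.exp_pos _
    refine le_of_mul_le_mul_left (h.trans (le_of_eq ?_)) hE
    have e1 : Real.exp (-L) * Real.exp (b * (-(1 / d) * Real.log r) + c * (-(1 / d) * Real.log z))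
        = Real.exp (b * (-(1 / d) * Real.log r') + c * (-(1 / d) * Real.log z'))
          * Real.exp (κ * a) := by
      rw [← Real.exp_add, ← Real.exp_add]
      congr 1
      rw [hκ, Real.log_div hr'.ne' hr.ne', Real.log_div hz'.ne' hz.ne']
      field_simp
      ring
    calc _ = (Real.exp (-L) * Real.exp (b * (-(1 / d) * Real.log r)
          + c * (-(1 / d) * Real.log z))) * S ^ a := by ring
      _ = _ := by rw [e1]; ring
  exact (Real.rpow_le_rpow_iff hS' (mul_nonneg (Real.exp_pos _).le hS) ha).mp h1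

section
variable {V : Type} [DecidableEq V] (G : SimpleGraph V) [DecidableRel G.Adj]

/-- maximality gives a bound for the sum of a competitor -/
lemma SS_le_ratio {a b c d q p : ℝ} (ha : 0 < a) (hb : 0 < b) (hc : 0 < c) (hd : 0 < d)
    {X Y Z : Finset V} (hY : Y.Nonempty) (hZ : Z.Nonempty) {w w' : ℕ} {nu ze nu' ze' : V → ℝ}
    (hnu : IsProb Y nu) (hze : IsProb Z ze) (hnu' : IsProb Y nu') (hze' : IsProb Z ze')
    (h : PP G a b c d q p w w' X Y Z nu' ze' ≤ PP G a b c d q p w w' X Y Z nu ze) :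
    SS G q p w w' X Y Z nu' ze'
      ≤ (Ry d Y nu' / Ry d Y nu) ^ (b / (a * d)) * (Ry d Z ze' / Ry d Z ze) ^ (c / (a * d))
        * SS G q p w w' X Y Z nu ze := by
  have h1 := rowF1 a b c d 0 (SS G q p w w' X Y Z nu ze) (SS G q p w w' X Y Z nu' ze')
    (Ry d Y nu) (Ry d Y nu') (Ry d Z ze) (Ry d Z ze') ha hb hc hd
    (SS_nonneg G q p w w' X Y Z nu ze) (SS_nonneg G q p w w' X Y Z nu' ze')
    (sum_rpow_pos hY hd hnu) (sum_rpow_pos hY hd hnu') (sum_rpow_pos hZ hd hze)
    (sum_rpow_pos hZ hd hze') (by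
      rw [neg_zero, Real.exp_zero, one_mul]
      exact h)
  simpa using h1

end

lemma IsProb.nonempty {V : Type} [DecidableEq V] {Y : Finset V} {f : V → ℝ} (h : IsProb Y f) :
    Y.Nonempty := by
  rw [Finset.nonempty_iff_ne_empty]
  intro hY
  have := h.sum
  rw [hY] at this
  simp at this

lemma rpow_cost {b a d q D C : ℝ} (ha : 0 < a) (hb : 0 < b) (hd : 0 < d) (hq : 0 < q)
    (hqD : q ≤ D) (h0 : 0 < D + C) (h1 : D + C ≤ 1) :
    ((D + C) / D ^ (1 + d)) ^ (b / (a * d)) ≤ q ^ (-(b * (1 + d)) / (a * d)) := by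
  have hD : 0 < D := lt_of_lt_of_le hq hqD
  have h2 : (D + C) / D ^ (1 + d) ≤ q ^ (-(1 + d)) := by
    rw [Real.rpow_neg hq.le, div_eq_mul_inv]
    have h3 : q ^ (1 + d) ≤ D ^ (1 + d) := Real.rpow_le_rpow hq.le hqD (by linarith)
    have h4 : 0 < q ^ (1 + d) := Real.rpow_pos_of_pos hq _
    have h5 : (D ^ (1 + d))⁻¹ ≤ (q ^ (1 + d))⁻¹ := inv_anti₀ h4 h3
    have h6 : 0 ≤ (D ^ (1 + d))⁻¹ := by positivity
    nlinarith
  have h7 : 0 ≤ (D + C) / D ^ (1 + d) := by positivity
  calc ((D + C) / D ^ (1 + d)) ^ (b / (a * d))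
      ≤ (q ^ (-(1 + d))) ^ (b / (a * d)) := Real.rpow_le_rpow h7 h2 (by positivity)
    _ = q ^ (-(b * (1 + d)) / (a * d)) := by
      rw [← Real.rpow_mul hq.le]; congr 1; field_simp

theorem rowF4 (hF2 : RowF2) : RowF4 := by
  intro a b c d q p ha hb hc hd hd1 hq hq1 hp hp1 V _ G _ X Y Z nu ze w w' hw hw' hnu hze hS hmax
  have hY := IsProb.nonempty hnu
  have hZ := IsProb.nonempty hze
  have hRY : 0 < Ry d Y nu := sum_rpow_pos hY hd hnu
  have hRZ : 0 < Ry d Z ze := sum_rpow_pos hZ hd hze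
  constructor
  · intro x hx
    have hdx : 0 < dR G Y nu x := lt_of_lt_of_le hq hx
    obtain ⟨h1, -, -, h4, h5, h6, h7, -⟩ :=
      (hF2 V G d 0 Y Z nu ze x hd hd1 le_rfl zero_le_one hnu hze).1 hdx
    have hE := Pool.Agent.H74.RM.rowE q p w w' V G X X Y Z nu ze (cdR G Y nu x) ze hw hw'
      (Finset.Subset.refl _)
    have hr := SS_le_ratio G ha hb hc hd hY hZ hnu hze h1 hze (hmax _ _ h1 hze)
    rw [div_self hRZ.ne', Real.one_rpow, mul_one, h4] at hr
    have hcost := rpow_cost (b := b) ha hb hd hq hx h5 h6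
    have hS0 := SS_nonneg G q p w w' X Y Z nu ze
    calc _ = ∑ x' ∈ X, wt G q p w w' Y Z nu ze x' *
        ((max (1 + (dR G Y (cdR G Y nu x) x' - dR G Y nu x') / (dR G Y nu x' - q)) 0) ^ w *
          (max (1 + (dB G Z ze x' - dB G Z ze x') / (dB G Z ze x' - p)) 0) ^ w') := by
          apply Finset.sum_congr rfl
          intro x' _
          rw [(h7 x').2, sub_self, zero_div, add_zero, max_eq_left (zero_le_one' ℝ), one_pow,
            mul_one, div_div]
      _ ≤ _ := hE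
      _ ≤ _ := hr
      _ ≤ _ := mul_le_mul_of_nonneg_right hcost hS0
  · intro x hx
    have hdx : 0 < dB G Z ze x := lt_of_lt_of_le hp hx
    obtain ⟨h1, -, -, h4, h5, h6, h7, -⟩ :=
      (hF2 V G d 0 Y Z nu ze x hd hd1 le_rfl zero_le_one hnu hze).2 hdx
    have hE := Pool.Agent.H74.RM.rowE q p w w' V G X X Y Z nu ze nu (cdB G Z ze x) hw hw'
      (Finset.Subset.refl _)
    have hr := SS_le_ratio G ha hb hc hd hY hZ hnu hze hnu h1 (hmax _ _ hnu h1)
    rw [div_self hRY.ne', Real.one_rpow, one_mul, h4] at hr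
    have hcost := rpow_cost (b := c) ha hc hd hp hx h5 h6
    have hS0 := SS_nonneg G q p w w' X Y Z nu ze
    calc _ = ∑ x' ∈ X, wt G q p w w' Y Z nu ze x' *
        ((max (1 + (dR G Y nu x' - dR G Y nu x') / (dR G Y nu x' - q)) 0) ^ w *
          (max (1 + (dB G Z (cdB G Z ze x) x' - dB G Z ze x') / (dB G Z ze x' - p)) 0) ^ w') := by
          apply Finset.sum_congr rfl
          intro x' _
          rw [(h7 x').2, sub_self, zero_div, add_zero, max_eq_left (zero_le_one' ℝ), one_pow,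
            one_mul, div_div]
      _ ≤ _ := hE
      _ ≤ _ := hr
      _ ≤ _ := mul_le_mul_of_nonneg_right hcost hS0

end Pool.Agent.H33.RM
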