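import Pool.Agent.H33.RM.Max

/-!
Two books (MP_28724c_co): control of the excesses and of the atoms at the maximiser over a window
of exponents with the quadratic penalty.
-/

open Finset

namespace Pool.Agent.H33.RM

open Pool.Agent.H92 Pool.Agent.H34.RM

/-- quadratic penalty on the window `[R, 2R]` -/
noncomputable def pen (a ε : ℝ) (R : ℕ) (w w' : ℕ) : ℝ :=
  a * ε / 2 * ((2 * (R : ℝ) - w) ^ 2 + (2 * (R : ℝ) - w') ^ 2)

/-- reference value of the excess -/
noncomputable def emv (ε : ℝ) (R : ℕ) (w : ℕ) : ℝ := Real.exp (-(ε * (2 * (R : ℝ) - w)))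

section graph
variable {V : Type} [DecidableEq V] (G : SimpleGraph V) [DecidableRel G.Adj]

lemma SS_le_of_PP {a b c d q p : ℝ} (ha : 0 < a) {w w' v v' : ℕ} {X Y Z : Finset V}
    {nu ze : V → ℝ} {A B : ℝ}
    (h : PP G a b c d q p v v' X Y Z nu ze * Real.exp (-A)
      ≤ PP G a b c d q p w w' X Y Z nu ze * Real.exp (-B)) :
    SS G q p v v' X Y Z nu ze ≤ Real.exp ((A - B) / a) * SS G q p w w' X Y Z nu ze := by
  have h0 := SS_nonneg G q p v v' X Y Z nu ze
  have h1 := SS_nonneg G q p w w' X Y Z nu ze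
  unfold PP at h
  have hE : 0 < Real.exp (b * lsz d Y nu + c * lsz d Z ze) := Real.exp_pos _
  have h2 : SS G q p v v' X Y Z nu ze ^ a * Real.exp (-A)
      ≤ SS G q p w w' X Y Z nu ze ^ a * Real.exp (-B) := by
    rw [mul_assoc, mul_assoc] at h
    exact le_of_mul_le_mul_left h hE
  have h3 : SS G q p v v' X Y Z nu ze ^ a
      ≤ SS G q p w w' X Y Z nu ze ^ a * Real.exp (A - B) := by
    have : SS G q p v v' X Y Z nu ze ^ a
        = (SS G q p v v' X Y Z nu ze ^ a * Real.exp (-A)) * Real.exp A := by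
      rw [mul_assoc, ← Real.exp_add]; simp
    rw [this]
    calc _ ≤ (SS G q p w w' X Y Z nu ze ^ a * Real.exp (-B)) * Real.exp A :=
          mul_le_mul_of_nonneg_right h2 (Real.exp_pos _).le
      _ = _ := by rw [mul_assoc, ← Real.exp_add]; congr 2; ring
  have h4 : Real.exp (A - B) = (Real.exp ((A - B) / a)) ^ a := by
    rw [← Real.exp_mul]; congr 1; field_simp
  rw [h4, ← Real.mul_rpow h1 (Real.exp_pos _).le] at h3
  have h5 := (Real.rpow_le_rpow_iff h0 (mul_nonneg h1 (Real.exp_pos _).le) ha).mp h3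
  linarith [mul_comm (SS G q p w w' X Y Z nu ze) (Real.exp ((A - B) / a))]

lemma wt_add_two_R {q p : ℝ} {w w' : ℕ} (hw : 1 ≤ w) (Y Z : Finset V) (nu ze : V → ℝ) (x : V) :
    wt G q p w w' Y Z nu ze x * (dR G Y nu x - q) ^ 2 = wt G q p (w + 2) w' Y Z nu ze x := by
  unfold wt
  rcases le_or_gt (dR G Y nu x - q) 0 with h | h
  · rw [max_eq_right h, zero_pow (by omega), zero_pow (by omega)]; ring
  · rw [max_eq_left h.le, pow_add]; ring

lemma wt_add_two_B {q p : ℝ} {w w' : ℕ} (hw : 1 ≤ w') (Y Z : Finset V) (nu ze : V → ℝ) (x : V) :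
    wt G q p w w' Y Z nu ze x * (dB G Z ze x - p) ^ 2 = wt G q p w (w' + 2) Y Z nu ze x := by
  unfold wt
  rcases le_or_gt (dB G Z ze x - p) 0 with h | h
  · rw [max_eq_right h, zero_pow (by omega), zero_pow (by omega)]; ring
  · rw [max_eq_left h.le, pow_add]; ring

lemma wt_inv_R {q p : ℝ} {w w' : ℕ} (Y Z : Finset V) (nu ze : V → ℝ) (x : V) :
    wt G q p (w + 1) w' Y Z nu ze x * (dR G Y nu x - q)⁻¹ ≤ wt G q p w w' Y Z nu ze x := by
  rcases le_or_gt (dR G Y nu x - q) 0 with h | h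
  · have : wt G q p (w + 1) w' Y Z nu ze x = 0 := by
      unfold wt; rw [max_eq_right h, zero_pow (by omega)]; ring
    rw [this, zero_mul]
    exact wt_nonneg G q p w w' Y Z nu ze x
  · unfold wt
    rw [max_eq_left h.le, pow_succ]
    apply le_of_eq
    field_simp

lemma wt_inv_B {q p : ℝ} {w w' : ℕ} (Y Z : Finset V) (nu ze : V → ℝ) (x : V) :
    wt G q p w (w' + 1) Y Z nu ze x * (dB G Z ze x - p)⁻¹ ≤ wt G q p w w' Y Z nu ze x := by
  rcases le_or_gt (dB G Z ze x - p) 0 with h | h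
  · have : wt G q p w (w' + 1) Y Z nu ze x = 0 := by
      unfold wt; rw [max_eq_right h, zero_pow (by omega)]; ring
    rw [this, zero_mul]
    exact wt_nonneg G q p w w' Y Z nu ze x
  · unfold wt
    rw [max_eq_left h.le, pow_succ]
    apply le_of_eq
    field_simp

/-- the maximality over the window -/
def IsMaxW (a b c d q p ε : ℝ) (R w w' : ℕ) (X Y Z : Finset V) (nu ze : V → ℝ) : Prop :=
  ∀ (v v' : ℕ) (nu' ze' : V → ℝ), R ≤ v → v ≤ 2 * R → R ≤ v' → v' ≤ 2 * R →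
    IsProb Y nu' → IsProb Z ze' →
    PP G a b c d q p v v' X Y Z nu' ze' * Real.exp (-pen a ε R v v')
      ≤ PP G a b c d q p w w' X Y Z nu ze * Real.exp (-pen a ε R w w')

variable {G}

lemma exc_sq_R {a b c d q p ε : ℝ} (ha : 0 < a) (hq : 0 ≤ q) (hε : 0 ≤ ε) {R w w' : ℕ}
    (hR : 1 ≤ R) (hRw : R ≤ w) (hw2 : w ≤ 2 * R) (hRw' : R ≤ w') (hw2' : w' ≤ 2 * R)
    {X Y Z : Finset V} {nu ze : V → ℝ} (hnu : IsProb Y nu) (hze : IsProb Z ze)
    (h : IsMaxW G a b c d q p ε R w w' X Y Z nu ze) :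
    ∑ x ∈ X, wt G q p w w' Y Z nu ze x * ((dR G Y nu x - q) / emv ε R w) ^ 2
      ≤ Real.exp (2 * ε) * SS G q p w w' X Y Z nu ze := by
  have hw1 : 1 ≤ w := by omega
  have hem : 0 < emv ε R w := Real.exp_pos _
  have hsum : ∑ x ∈ X, wt G q p w w' Y Z nu ze x * ((dR G Y nu x - q) / emv ε R w) ^ 2
      = (emv ε R w)⁻¹ ^ 2 * SS G q p (w + 2) w' X Y Z nu ze := by
    unfold SS
    rw [Finset.mul_sum]
    apply Finset.sum_congr rfl
    intro x _
    rw [← wt_add_two_R G hw1]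
    rw [div_eq_mul_inv]; ring
  have hS := SS_nonneg G q p w w' X Y Z nu ze
  have hinv : (emv ε R w)⁻¹ ^ 2 = Real.exp (2 * (ε * (2 * (R : ℝ) - w))) := by
    unfold emv
    rw [← Real.exp_neg, ← Real.exp_nat_mul]
    congr 1; push_cast; ring
  by_cases hc : w + 2 ≤ 2 * R
  · have h1 := SS_le_of_PP G ha (h (w + 2) w' nu ze (by omega) hc hRw' hw2' hnu hze)
    rw [hsum]
    calc (emv ε R w)⁻¹ ^ 2 * SS G q p (w + 2) w' X Y Z nu ze
        ≤ (emv ε R w)⁻¹ ^ 2 * (Real.exp ((pen a ε R (w + 2) w' - pen a ε R w w') / a)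
            * SS G q p w w' X Y Z nu ze) := mul_le_mul_of_nonneg_left h1 (by positivity)
      _ = Real.exp (2 * ε) * SS G q p w w' X Y Z nu ze := by
        rw [← mul_assoc, hinv, ← Real.exp_add]
        congr 2
        unfold pen
        push_cast
        field_simp
        ring
  · have h2 : (2 * (R : ℝ) - w) ≤ 1 := by
      have : 2 * R ≤ w + 1 := by omega
      have : (2 * (R : ℝ)) ≤ w + 1 := by exact_mod_cast this
      linarith
    have h3 : SS G q p (w + 2) w' X Y Z nu ze ≤ SS G q p w w' X Y Z nu ze := by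
      unfold SS
      apply Finset.sum_le_sum
      intro x _
      rw [← wt_add_two_R G hw1]
      have hx := wt_nonneg G q p w w' Y Z nu ze x
      rcases le_or_gt (dR G Y nu x - q) 0 with hh | hh
      · have : wt G q p w w' Y Z nu ze x = 0 := by
          unfold wt; rw [max_eq_right hh, zero_pow (by omega)]; ring
        rw [this]; simp
      · have h4 : dR G Y nu x - q ≤ 1 := by linarith [dR_le_one G hnu x]
        have h5 : (dR G Y nu x - q) ^ 2 ≤ 1 := by nlinarith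
        nlinarith
    rw [hsum, hinv]
    have h6 : Real.exp (2 * (ε * (2 * (R : ℝ) - w))) ≤ Real.exp (2 * ε) := by
      apply Real.exp_le_exp.mpr
      nlinarith
    calc _ ≤ Real.exp (2 * (ε * (2 * (R : ℝ) - w))) * SS G q p w w' X Y Z nu ze :=
          mul_le_mul_of_nonneg_left h3 (Real.exp_pos _).le
      _ ≤ _ := mul_le_mul_of_nonneg_right h6 hS

lemma exc_sq_B {a b c d q p ε : ℝ} (ha : 0 < a) (hp : 0 ≤ p) (hε : 0 ≤ ε) {R w w' : ℕ}
    (hR : 1 ≤ R) (hRw : R ≤ w) (hw2 : w ≤ 2 * R) (hRw' : R ≤ w') (hw2' : w' ≤ 2 * R)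
    {X Y Z : Finset V} {nu ze : V → ℝ} (hnu : IsProb Y nu) (hze : IsProb Z ze)
    (h : IsMaxW G a b c d q p ε R w w' X Y Z nu ze) :
    ∑ x ∈ X, wt G q p w w' Y Z nu ze x * ((dB G Z ze x - p) / emv ε R w') ^ 2
      ≤ Real.exp (2 * ε) * SS G q p w w' X Y Z nu ze := by
  have hw1 : 1 ≤ w' := by omega
  have hem : 0 < emv ε R w' := Real.exp_pos _
  have hsum : ∑ x ∈ X, wt G q p w w' Y Z nu ze x * ((dB G Z ze x - p) / emv ε R w') ^ 2
      = (emv ε R w')⁻¹ ^ 2 * SS G q p w (w' + 2) X Y Z nu ze := by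
    unfold SS
    rw [Finset.mul_sum]
    apply Finset.sum_congr rfl
    intro x _
    rw [← wt_add_two_B G hw1]
    rw [div_eq_mul_inv]; ring
  have hS := SS_nonneg G q p w w' X Y Z nu ze
  have hinv : (emv ε R w')⁻¹ ^ 2 = Real.exp (2 * (ε * (2 * (R : ℝ) - w'))) := by
    unfold emv
    rw [← Real.exp_neg, ← Real.exp_nat_mul]
    congr 1; push_cast; ring
  by_cases hc : w' + 2 ≤ 2 * R
  · have h1 := SS_le_of_PP G ha (h w (w' + 2) nu ze hRw hw2 (by omega) hc hnu hze)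
    rw [hsum]
    calc (emv ε R w')⁻¹ ^ 2 * SS G q p w (w' + 2) X Y Z nu ze
        ≤ (emv ε R w')⁻¹ ^ 2 * (Real.exp ((pen a ε R w (w' + 2) - pen a ε R w w') / a)
            * SS G q p w w' X Y Z nu ze) := mul_le_mul_of_nonneg_left h1 (by positivity)
      _ = Real.exp (2 * ε) * SS G q p w w' X Y Z nu ze := by
        rw [← mul_assoc, hinv, ← Real.exp_add]
        congr 2
        unfold pen
        push_cast
        field_simp
        ring
  · have h2 : (2 * (R : ℝ) - w') ≤ 1 := by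
      have : 2 * R ≤ w' + 1 := by omega
      have : (2 * (R : ℝ)) ≤ w' + 1 := by exact_mod_cast this
      linarith
    have h3 : SS G q p w (w' + 2) X Y Z nu ze ≤ SS G q p w w' X Y Z nu ze := by
      unfold SS
      apply Finset.sum_le_sum
      intro x _
      rw [← wt_add_two_B G hw1]
      have hx := wt_nonneg G q p w w' Y Z nu ze x
      rcases le_or_gt (dB G Z ze x - p) 0 with hh | hh
      · have : wt G q p w w' Y Z nu ze x = 0 := by
          unfold wt; rw [max_eq_right hh, zero_pow (by omega : w' ≠ 0)]; ring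
        rw [this]; simp
      · have h4 : dB G Z ze x - p ≤ 1 := by linarith [dB_le_one G hze x]
        have h5 : (dB G Z ze x - p) ^ 2 ≤ 1 := by nlinarith
        nlinarith
    rw [hsum, hinv]
    have h6 : Real.exp (2 * (ε * (2 * (R : ℝ) - w'))) ≤ Real.exp (2 * ε) := by
      apply Real.exp_le_exp.mpr
      nlinarith
    calc _ ≤ Real.exp (2 * (ε * (2 * (R : ℝ) - w'))) * SS G q p w w' X Y Z nu ze :=
          mul_le_mul_of_nonneg_left h3 (Real.exp_pos _).le
      _ ≤ _ := mul_le_mul_of_nonneg_right h6 hS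

lemma exc_inv_R {a b c d q p ε : ℝ} (ha : 0 < a) {R w w' : ℕ}
    (hRw : R + 1 ≤ w) (hw2 : w ≤ 2 * R) (hRw' : R ≤ w') (hw2' : w' ≤ 2 * R)
    {X Y Z : Finset V} {nu ze : V → ℝ} (hnu : IsProb Y nu) (hze : IsProb Z ze)
    (h : IsMaxW G a b c d q p ε R w w' X Y Z nu ze) :
    ∑ x ∈ X, wt G q p w w' Y Z nu ze x * (emv ε R w / (dR G Y nu x - q))
      ≤ Real.exp (ε / 2) * SS G q p w w' X Y Z nu ze := by
  obtain ⟨v, rfl⟩ : ∃ v, w = v + 1 := ⟨w - 1, by omega⟩
  have h1 := SS_le_of_PP G ha (h v w' nu ze (by omega) (by omega) hRw' hw2' hnu hze)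
  have hem : 0 < emv ε R (v + 1) := Real.exp_pos _
  have h2 : ∑ x ∈ X, wt G q p (v + 1) w' Y Z nu ze x * (emv ε R (v + 1) / (dR G Y nu x - q))
      ≤ emv ε R (v + 1) * SS G q p v w' X Y Z nu ze := by
    unfold SS
    rw [Finset.mul_sum]
    apply Finset.sum_le_sum
    intro x _
    have := wt_inv_R G (q := q) (p := p) (w := v) (w' := w') Y Z nu ze x
    calc _ = emv ε R (v + 1) * (wt G q p (v + 1) w' Y Z nu ze x * (dR G Y nu x - q)⁻¹) := by
          rw [div_eq_mul_inv]; ring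
      _ ≤ _ := mul_le_mul_of_nonneg_left this hem.le
  refine h2.trans ?_
  calc emv ε R (v + 1) * SS G q p v w' X Y Z nu ze
      ≤ emv ε R (v + 1) * (Real.exp ((pen a ε R v w' - pen a ε R (v + 1) w') / a)
          * SS G q p (v + 1) w' X Y Z nu ze) := mul_le_mul_of_nonneg_left h1 hem.le
    _ = Real.exp (ε / 2) * SS G q p (v + 1) w' X Y Z nu ze := by
      unfold emv
      rw [← mul_assoc, ← Real.exp_add]
      congr 2
      unfold pen
      push_cast
      field_simp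
      ring

lemma exc_inv_B {a b c d q p ε : ℝ} (ha : 0 < a) {R w w' : ℕ}
    (hRw : R ≤ w) (hw2 : w ≤ 2 * R) (hRw' : R + 1 ≤ w') (hw2' : w' ≤ 2 * R)
    {X Y Z : Finset V} {nu ze : V → ℝ} (hnu : IsProb Y nu) (hze : IsProb Z ze)
    (h : IsMaxW G a b c d q p ε R w w' X Y Z nu ze) :
    ∑ x ∈ X, wt G q p w w' Y Z nu ze x * (emv ε R w' / (dB G Z ze x - p))
      ≤ Real.exp (ε / 2) * SS G q p w w' X Y Z nu ze := by
  obtain ⟨v, rfl⟩ : ∃ v, w' = v + 1 := ⟨w' - 1, by omega⟩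
  have h1 := SS_le_of_PP G ha (h w v nu ze hRw hw2 (by omega) (by omega) hnu hze)
  have hem : 0 < emv ε R (v + 1) := Real.exp_pos _
  have h2 : ∑ x ∈ X, wt G q p w (v + 1) Y Z nu ze x * (emv ε R (v + 1) / (dB G Z ze x - p))
      ≤ emv ε R (v + 1) * SS G q p w v X Y Z nu ze := by
    unfold SS
    rw [Finset.mul_sum]
    apply Finset.sum_le_sum
    intro x _
    have := wt_inv_B G (q := q) (p := p) (w := w) (w' := v) Y Z nu ze x
    calc _ = emv ε R (v + 1) * (wt G q p w (v + 1) Y Z nu ze x * (dB G Z ze x - p)⁻¹) := by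
          rw [div_eq_mul_inv]; ring
      _ ≤ _ := mul_le_mul_of_nonneg_left this hem.le
  refine h2.trans ?_
  calc emv ε R (v + 1) * SS G q p w v X Y Z nu ze
      ≤ emv ε R (v + 1) * (Real.exp ((pen a ε R w v - pen a ε R w (v + 1)) / a)
          * SS G q p w (v + 1) X Y Z nu ze) := mul_le_mul_of_nonneg_left h1 hem.le
    _ = Real.exp (ε / 2) * SS G q p w (v + 1) X Y Z nu ze := by
      unfold emv
      rw [← mul_assoc, ← Real.exp_add]
      congr 2
      unfold pen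
      push_cast
      field_simp
      ring

lemma atoms {q p ε e0 : ℝ} (hq : 0 ≤ q) (hp : 0 ≤ p) (hε : 0 ≤ ε) {R w w' D : ℕ}
    (hRw : R ≤ w) (hw2 : w ≤ 2 * R) (hRw' : R ≤ w') (hw2' : w' ≤ 2 * R)
    {X Y Z : Finset V} {nu ze : V → ℝ} (hnu : IsProb Y nu) (hze : IsProb Z ze)
    (hS : (4 * (R : ℝ) * Real.exp (2 * (ε * R))) ^ D ≤ e0 * SS G q p w w' X Y Z nu ze) (x : V) :
    wt G q p w w' Y Z nu ze x * (((w : ℝ) + w') / (emv ε R w * emv ε R w')) ^ D
      ≤ e0 * SS G q p w w' X Y Z nu ze := by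
  have h1 : (w : ℝ) ≤ 2 * R := by exact_mod_cast hw2
  have h2 : (w' : ℝ) ≤ 2 * R := by exact_mod_cast hw2'
  have h3 : (R : ℝ) ≤ w := by exact_mod_cast hRw
  have h4 : (R : ℝ) ≤ w' := by exact_mod_cast hRw'
  have hR0 : (0 : ℝ) ≤ R := by positivity
  have h5 : ((w : ℝ) + w') / (emv ε R w * emv ε R w') ≤ 4 * (R : ℝ) * Real.exp (2 * (ε * R)) := by
    unfold emv
    rw [← Real.exp_add, div_eq_mul_inv, ← Real.exp_neg]
    apply mul_le_mul
    · linarith
    · apply Real.exp_le_exp.mpr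
      nlinarith
    · exact (Real.exp_pos _).le
    · positivity
  have h6 : 0 ≤ ((w : ℝ) + w') / (emv ε R w * emv ε R w') := by unfold emv; positivity
  have h7 : (((w : ℝ) + w') / (emv ε R w * emv ε R w')) ^ D
      ≤ (4 * (R : ℝ) * Real.exp (2 * (ε * R))) ^ D := pow_le_pow_left₀ h6 h5 D
  have h8 := wt_le_one G hq hp w w' hnu hze x
  have h9 := wt_nonneg G q p w w' Y Z nu ze x
  have h10 : 0 ≤ (((w : ℝ) + w') / (emv ε R w * emv ε R w')) ^ D := pow_nonneg h6 D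
  calc wt G q p w w' Y Z nu ze x * (((w : ℝ) + w') / (emv ε R w * emv ε R w')) ^ D
      ≤ 1 * (((w : ℝ) + w') / (emv ε R w * emv ε R w')) ^ D :=
        mul_le_mul_of_nonneg_right h8 h10
    _ ≤ (4 * (R : ℝ) * Real.exp (2 * (ε * R))) ^ D := by rw [one_mul]; exact h7
    _ ≤ _ := hS

lemma emv_pos (ε : ℝ) (R w : ℕ) : 0 < emv ε R w := Real.exp_pos _

lemma emv_le_one {ε : ℝ} (hε : 0 ≤ ε) {R w : ℕ} (hw2 : w ≤ 2 * R) : emv ε R w ≤ 1 := by
  unfold emv
  rw [Real.exp_le_one_iff]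
  have : (w : ℝ) ≤ 2 * R := by exact_mod_cast hw2
  have : 0 ≤ ε * (2 * (R : ℝ) - w) := mul_nonneg hε (by linarith)
  linarith

lemma log_inv_emv_le {ε e0 : ℝ} (hε : 0 ≤ ε) (he : ε ≤ e0) {R w : ℕ} (hRw : R ≤ w) :
    Real.log (1 / emv ε R w) ≤ e0 * w := by
  unfold emv
  rw [one_div, ← Real.exp_neg, Real.log_exp]
  have h3 : (R : ℝ) ≤ w := by exact_mod_cast hRw
  have hR0 : (0 : ℝ) ≤ R := by positivity
  nlinarith

/-- All hypotheses of `LocalB` that concern the maximiser; what remains is the bound for the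
children. -/
theorem contra_of_local {a b c d q p L M ε e0 : ℝ} {D w0 : ℕ} (ha : 0 < a) (hq : 0 ≤ q)
    (hp : 0 ≤ p) (hε : 0 ≤ ε) (he : ε ≤ e0) (he2 : Real.exp (2 * ε) ≤ 1 + e0)
    (hloc : ∀ (V : Type) [DecidableEq V] (G : SimpleGraph V) [DecidableRel G.Adj]
        (X Y Z : Finset V) (nu ze : V → ℝ) (w w' : ℕ) (em em' : ℝ),
        w0 ≤ w → w0 ≤ w' → IsProb Y nu → IsProb Z ze →
        0 < em → em ≤ 1 → 0 < em' → em' ≤ 1 →
        Real.log (1 / em) ≤ e0 * w → Real.log (1 / em') ≤ e0 * w' →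
        0 < SS G q p w w' X Y Z nu ze →
        (∀ nu' ze' : V → ℝ, IsProb Y nu' → IsProb Z ze' →
          PP G a b c d q p w w' X Y Z nu' ze' ≤ PP G a b c d q p w w' X Y Z nu ze) →
        (∑ x ∈ X, wt G q p w w' Y Z nu ze x * ((dR G Y nu x - q) / em) ^ 2
          ≤ (1 + e0) * SS G q p w w' X Y Z nu ze) →
        (∑ x ∈ X, wt G q p w w' Y Z nu ze x * (em / (dR G Y nu x - q))
          ≤ (1 + e0) * SS G q p w w' X Y Z nu ze) →
        (∑ x ∈ X, wt G q p w w' Y Z nu ze x * ((dB G Z ze x - p) / em') ^ 2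
          ≤ (1 + e0) * SS G q p w w' X Y Z nu ze) →
        (∑ x ∈ X, wt G q p w w' Y Z nu ze x * (em' / (dB G Z ze x - p))
          ≤ (1 + e0) * SS G q p w w' X Y Z nu ze) →
        (∀ x ∈ X, wt G q p w w' Y Z nu ze x * (((w : ℝ) + w') / (em * em')) ^ D
          ≤ e0 * SS G q p w w' X Y Z nu ze) →
        (∀ x ∈ X, ∀ nu' ze' : V → ℝ, IsProb (rN G x Y) nu' → IsProb Z ze' →
          PP G a b c d q p w w' (rN G x X) (rN G x Y) Z nu' ze'
            ≤ Real.exp (-L) * PP G a b c d q p w w' X Y Z nu ze) →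
        (∀ x ∈ X, ∀ nu' ze' : V → ℝ, IsProb Y nu' → IsProb (bN G x Z) ze' →
          PP G a b c d q p w w' (bN G x X) Y (bN G x Z) nu' ze'
            ≤ Real.exp (-M) * PP G a b c d q p w w' X Y Z nu ze) →
        False)
    {R w w' : ℕ} (hR : 1 ≤ R) (hR0 : w0 ≤ R) (hRw : R + 1 ≤ w) (hw2 : w ≤ 2 * R)
    (hRw' : R + 1 ≤ w') (hw2' : w' ≤ 2 * R)
    {X Y Z : Finset V} {nu ze : V → ℝ} (hnu : IsProb Y nu) (hze : IsProb Z ze)
    (hmax : IsMaxW G a b c d q p ε R w w' X Y Z nu ze)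
    (hS0 : 0 < SS G q p w w' X Y Z nu ze)
    (hS : (4 * (R : ℝ) * Real.exp (2 * (ε * R))) ^ D ≤ e0 * SS G q p w w' X Y Z nu ze)
    (hred : ∀ x ∈ X, ∀ nu' ze' : V → ℝ, IsProb (rN G x Y) nu' → IsProb Z ze' →
          PP G a b c d q p w w' (rN G x X) (rN G x Y) Z nu' ze'
            ≤ Real.exp (-L) * PP G a b c d q p w w' X Y Z nu ze)
    (hblue : ∀ x ∈ X, ∀ nu' ze' : V → ℝ, IsProb Y nu' → IsProb (bN G x Z) ze' →
          PP G a b c d q p w w' (bN G x X) Y (bN G x Z) nu' ze'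
            ≤ Real.exp (-M) * PP G a b c d q p w w' X Y Z nu ze) : False := by
  have hε2 : Real.exp (ε / 2) ≤ 1 + e0 :=
    (Real.exp_le_exp.mpr (by linarith)).trans he2
  refine hloc V G X Y Z nu ze w w' (emv ε R w) (emv ε R w') (by omega) (by omega) hnu hze
    (emv_pos ε R w) (emv_le_one hε hw2) (emv_pos ε R w') (emv_le_one hε hw2')
    (log_inv_emv_le hε he (by omega)) (log_inv_emv_le hε he (by omega)) hS0 ?_ ?_ ?_ ?_ ?_ ?_
    hred hblue
  · intro nu' ze' h1 h2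
    have := hmax w w' nu' ze' (by omega) hw2 (by omega) hw2' h1 h2
    exact le_of_mul_le_mul_right this (Real.exp_pos _)
  · exact (exc_sq_R ha hq hε hR (by omega) hw2 (by omega) hw2' hnu hze hmax).trans
      (mul_le_mul_of_nonneg_right he2 hS0.le)
  · exact (exc_inv_R ha hRw hw2 (by omega) hw2' hnu hze hmax).trans
      (mul_le_mul_of_nonneg_right hε2 hS0.le)
  · exact (exc_sq_B ha hp hε hR (by omega) hw2 (by omega) hw2' hnu hze hmax).trans
      (mul_le_mul_of_nonneg_right he2 hS0.le)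
  · exact (exc_inv_B ha (by omega) hw2 hRw' hw2' hnu hze hmax).trans
      (mul_le_mul_of_nonneg_right hε2 hS0.le)
  · intro x _
    exact atoms hq hp hε (by omega) hw2 (by omega) hw2' hnu hze hS x

/-- existence of the maximiser on the window -/
theorem exists_isMaxW {a b c d q p ε : ℝ} (ha : 0 < a) (hd : 0 < d) (R : ℕ) (X : Finset V)
    {Y Z : Finset V} (hY : Y.Nonempty) (hZ : Z.Nonempty) :
    ∃ (w w' : ℕ) (nu ze : V → ℝ), R ≤ w ∧ w ≤ 2 * R ∧ R ≤ w' ∧ w' ≤ 2 * R ∧ IsProb Y nu ∧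
      IsProb Z ze ∧ IsMaxW G a b c d q p ε R w w' X Y Z nu ze := by
  obtain ⟨w, w', nu, ze, h1, h2, h3, h4, h5, h6, h7⟩ :=
    exists_max_window G (a := a) (b := b) (c := c) (d := d) (q := q) (p := p) ha hd R (2 * R)
      (by omega) (pen a ε R) X hY hZ
  exact ⟨w, w', nu, ze, h1, h2, h3, h4, h5, h6, h7⟩

end graph

end Pool.Agent.H33.RM
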