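import Pool.Agent.H33.RM.RowF
import Pool.Agent.H74.RM.RowF2

/-!
Two books (MP_28724c_co): row F4 without hypothesis.
-/

namespace Pool.Agent.H33.RM

open Pool.Agent.H34.RM

theorem rowF4_all : RowF4 := rowF4 Pool.Agent.H74.RM.rowF2

end Pool.Agent.H33.RM
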