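import Pool.Agent.H33.RM.RowF
import Pool.Agent.H74.RM.RowF2

/-!
Two books (MP_28724c_co): sharp one sided moments for the good `x` (small covariance with the
Renyi density).
-/

open Finset

namespace Pool.Agent.H33.RM

open Pool.Agent.H92 Pool.Agent.H34.RM

/-- exact form of row F4: the bound is the exact cost of conditioning -/
theorem mom_exact {a b c d q p : ℝ} (ha : 0 < a) (hb : 0 < b) (hc : 0 < c) (hd : 0 < d)
    (hd1 : d ≤ 1) {V : Type} [DecidableEq V] (G : SimpleGraph V) [DecidableRel G.Adj]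
    {X Y Z : Finset V} {nu ze : V → ℝ} {w w' : ℕ} (hw : 1 ≤ w) (hw' : 1 ≤ w')
    (hnu : IsProb Y nu) (hze : IsProb Z ze)
    (hmax : ∀ nu' ze' : V → ℝ, IsProb Y nu' → IsProb Z ze' →
      PP G a b c d q p w w' X Y Z nu' ze' ≤ PP G a b c d q p w w' X Y Z nu ze) :
    (∀ x, 0 < dR G Y nu x → ∑ x' ∈ X, wt G q p w w' Y Z nu ze x' *
        (max (1 + KR G Y nu x x' / (dR G Y nu x * (dR G Y nu x' - q))) 0) ^ w
      ≤ ((dR G Y nu x + CR G d Y nu x) / dR G Y nu x ^ (1 + d)) ^ (b / (a * d))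
        * SS G q p w w' X Y Z nu ze) ∧
    (∀ x, 0 < dB G Z ze x → ∑ x' ∈ X, wt G q p w w' Y Z nu ze x' *
        (max (1 + KB G Z ze x x' / (dB G Z ze x * (dB G Z ze x' - p))) 0) ^ w'
      ≤ ((dB G Z ze x + CB G d Z ze x) / dB G Z ze x ^ (1 + d)) ^ (c / (a * d))
        * SS G q p w w' X Y Z nu ze) := by
  have hY := IsProb.nonempty hnu
  have hZ := IsProb.nonempty hze
  have hRY : 0 < Ry d Y nu := sum_rpow_pos hY hd hnu
  have hRZ : 0 < Ry d Z ze := sum_rpow_pos hZ hd hze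
  constructor
  · intro x hdx
    obtain ⟨h1, -, -, h4, h5, h6, h7, -⟩ :=
      (Pool.Agent.H74.RM.rowF2 V G d 0 Y Z nu ze x hd hd1 le_rfl zero_le_one hnu hze).1 hdx
    have hE := Pool.Agent.H74.RM.rowE q p w w' V G X X Y Z nu ze (cdR G Y nu x) ze hw hw'
      (Finset.Subset.refl _)
    have hr := SS_le_ratio G ha hb hc hd hY hZ hnu hze h1 hze (hmax _ _ h1 hze)
    rw [div_self hRZ.ne', Real.one_rpow, mul_one, h4] at hr
    calc _ = ∑ x' ∈ X, wt G q p w w' Y Z nu ze x' *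
        ((max (1 + (dR G Y (cdR G Y nu x) x' - dR G Y nu x') / (dR G Y nu x' - q)) 0) ^ w *
          (max (1 + (dB G Z ze x' - dB G Z ze x') / (dB G Z ze x' - p)) 0) ^ w') := by
          apply Finset.sum_congr rfl
          intro x' _
          rw [(h7 x').2, sub_self, zero_div, add_zero, max_eq_left (zero_le_one' ℝ), one_pow,
            mul_one, div_div]
      _ ≤ _ := hE
      _ ≤ _ := hr
  · intro x hdx
    obtain ⟨h1, -, -, h4, h5, h6, h7, -⟩ :=
      (Pool.Agent.H74.RM.rowF2 V G d 0 Y Z nu ze x hd hd1 le_rfl zero_le_one hnu hze).2 hdx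
    have hE := Pool.Agent.H74.RM.rowE q p w w' V G X X Y Z nu ze nu (cdB G Z ze x) hw hw'
      (Finset.Subset.refl _)
    have hr := SS_le_ratio G ha hb hc hd hY hZ hnu hze hnu h1 (hmax _ _ hnu h1)
    rw [div_self hRY.ne', Real.one_rpow, one_mul, h4] at hr
    calc _ = ∑ x' ∈ X, wt G q p w w' Y Z nu ze x' *
        ((max (1 + (dR G Y nu x' - dR G Y nu x') / (dR G Y nu x' - q)) 0) ^ w *
          (max (1 + (dB G Z (cdB G Z ze x) x' - dB G Z ze x') / (dB G Z ze x' - p)) 0) ^ w') := by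
          apply Finset.sum_congr rfl
          intro x' _
          rw [(h7 x').2, sub_self, zero_div, add_zero, max_eq_left (zero_le_one' ℝ), one_pow,
            one_mul, div_div]
      _ ≤ _ := hE
      _ ≤ _ := hr

/-- the cost of conditioning for a good `x` -/
lemma cost_good {b a d q D C e : ℝ} (ha : 0 < a) (hb : 0 < b) (hd : 0 < d) (hq : 0 < q)
    (hqD : q ≤ D) (he : 0 ≤ e) (h0 : 0 < D + C) (hC : C ≤ e * q) :
    ((D + C) / D ^ (1 + d)) ^ (b / (a * d))
      ≤ q ^ (-b / a) * Real.exp (e * (b / (a * d))) := by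
  have hD : 0 < D := lt_of_lt_of_le hq hqD
  have h1 : D + C ≤ D * Real.exp e := by
    have : 1 + e ≤ Real.exp e := by linarith [Real.add_one_le_exp e]
    have h2 : e * q ≤ e * D := mul_le_mul_of_nonneg_left hqD he
    nlinarith
  have h2 : (D + C) / D ^ (1 + d) ≤ D ^ (-d) * Real.exp e := by
    rw [div_le_iff₀ (Real.rpow_pos_of_pos hD _)]
    calc D + C ≤ D * Real.exp e := h1
      _ = D ^ (-d) * Real.exp e * D ^ (1 + d) := by
        rw [mul_comm (D ^ (-d)) (Real.exp e), mul_assoc, ← Real.rpow_add hD]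
        rw [show -d + (1 + d) = 1 by ring, Real.rpow_one]; ring
  have h3 : D ^ (-d) ≤ q ^ (-d) := by
    rw [Real.rpow_neg hD.le, Real.rpow_neg hq.le]
    exact inv_anti₀ (Real.rpow_pos_of_pos hq _) (Real.rpow_le_rpow hq.le hqD hd.le)
  have h4 : (D + C) / D ^ (1 + d) ≤ q ^ (-d) * Real.exp e :=
    h2.trans (mul_le_mul_of_nonneg_right h3 (Real.exp_pos _).le)
  have h5 : 0 ≤ (D + C) / D ^ (1 + d) := by positivity
  calc ((D + C) / D ^ (1 + d)) ^ (b / (a * d))
      ≤ (q ^ (-d) * Real.exp e) ^ (b / (a * d)) := Real.rpow_le_rpow h5 h4 (by positivity)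
    _ = q ^ (-b / a) * Real.exp (e * (b / (a * d))) := by
      rw [Real.mul_rpow (Real.rpow_nonneg hq.le _) (Real.exp_pos _).le, ← Real.rpow_mul hq.le,
        ← Real.exp_mul]
      congr 2
      field_simp

/-- Sharp one sided moments for the good `x`. -/
def RowF5 : Prop :=
  ∀ (a b c d q p : ℝ), 0 < a → 0 < b → 0 < c → 0 < d → d ≤ 1 → 0 < q → q < 1 →
    0 < p → p < 1 → ∀ ε : ℝ, 0 < ε → ∃ e1 : ℝ, 0 < e1 ∧
      ∀ (V : Type) [DecidableEq V] (G : SimpleGraph V) [DecidableRel G.Adj]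
        (X Y Z : Finset V) (nu ze : V → ℝ) (w w' : ℕ),
        1 ≤ w → 1 ≤ w' → IsProb Y nu → IsProb Z ze →
        (∀ nu' ze' : V → ℝ, IsProb Y nu' → IsProb Z ze' →
          PP G a b c d q p w w' X Y Z nu' ze' ≤ PP G a b c d q p w w' X Y Z nu ze) →
        (∀ x, q ≤ dR G Y nu x → CR G d Y nu x ≤ e1 → ∑ x' ∈ X, wt G q p w w' Y Z nu ze x' *
            (max (1 + KR G Y nu x x' / (dR G Y nu x * (dR G Y nu x' - q))) 0) ^ w
          ≤ (1 + ε) * q ^ (-b / a) * SS G q p w w' X Y Z nu ze) ∧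
        (∀ x, p ≤ dB G Z ze x → CB G d Z ze x ≤ e1 → ∑ x' ∈ X, wt G q p w w' Y Z nu ze x' *
            (max (1 + KB G Z ze x x' / (dB G Z ze x * (dB G Z ze x' - p))) 0) ^ w'
          ≤ (1 + ε) * p ^ (-c / a) * SS G q p w w' X Y Z nu ze)

theorem rowF5 : RowF5 := by
  intro a b c d q p ha hb hc hd hd1 hq hq1 hp hp1 ε hε
  -- choose e with exp (e * B) ≤ 1 + ε for B = (b + c)/(a d)
  have hL : 0 < Real.log (1 + ε) := Real.log_pos (by linarith)
  set B : ℝ := (b + c) / (a * d) with hB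
  have hBpos : 0 < B := by positivity
  set e : ℝ := Real.log (1 + ε) / B with he
  have hepos : 0 < e := by positivity
  refine ⟨min (e * q) (e * p), lt_min (by positivity) (by positivity), ?_⟩
  intro V _ G _ X Y Z nu ze w w' hw hw' hnu hze hmax
  obtain ⟨hR, hBl⟩ := mom_exact ha hb hc hd hd1 G hw hw' hnu hze hmax
  have hS0 := SS_nonneg G q p w w' X Y Z nu ze
  have hexp1 : Real.exp (e * (b / (a * d))) ≤ 1 + ε := by
    rw [← Real.exp_log (show 0 < 1 + ε by linarith)]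
    apply Real.exp_le_exp.mpr
    have : e * (b / (a * d)) ≤ e * B := by
      apply mul_le_mul_of_nonneg_left _ hepos.le
      rw [hB]; gcongr; linarith
    calc e * (b / (a * d)) ≤ e * B := this
      _ = Real.log (1 + ε) := by rw [he]; field_simp
  have hexp2 : Real.exp (e * (c / (a * d))) ≤ 1 + ε := by
    rw [← Real.exp_log (show 0 < 1 + ε by linarith)]
    apply Real.exp_le_exp.mpr
    have : e * (c / (a * d)) ≤ e * B := by
      apply mul_le_mul_of_nonneg_left _ hepos.le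
      rw [hB]; gcongr; linarith
    calc e * (c / (a * d)) ≤ e * B := this
      _ = Real.log (1 + ε) := by rw [he]; field_simp
  constructor
  · intro x hx hCx
    have hdx : 0 < dR G Y nu x := lt_of_lt_of_le hq hx
    obtain ⟨-, -, -, -, h5, -⟩ :=
      (Pool.Agent.H74.RM.rowF2 V G d 0 Y Z nu ze x hd hd1 le_rfl zero_le_one hnu hze).1 hdx
    refine (hR x hdx).trans (mul_le_mul_of_nonneg_right ?_ hS0)
    refine (cost_good ha hb hd hq hx hepos.le h5 (hCx.trans (min_le_left _ _))).trans ?_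
    rw [mul_comm (1 + ε)]
    exact mul_le_mul_of_nonneg_left hexp1 (Real.rpow_nonneg hq.le _)
  · intro x hx hCx
    have hdx : 0 < dB G Z ze x := lt_of_lt_of_le hp hx
    obtain ⟨-, -, -, -, h5, -⟩ :=
      (Pool.Agent.H74.RM.rowF2 V G d 0 Y Z nu ze x hd hd1 le_rfl zero_le_one hnu hze).2 hdx
    refine (hBl x hdx).trans (mul_le_mul_of_nonneg_right ?_ hS0)
    refine (cost_good ha hc hd hp hx hepos.le h5 (hCx.trans (min_le_right _ _))).trans ?_
    rw [mul_comm (1 + ε)]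
    exact mul_le_mul_of_nonneg_left hexp2 (Real.rpow_nonneg hp.le _)

end Pool.Agent.H33.RM
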